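import Pool.Agent.H37.CTR.Stmts

set_option autoImplicit false

namespace Pool.CND

namespace SQ1T

theorem card_comap_mk {W : Type} [Group W] [Finite W] (N : Subgroup W) [N.Normal]
    (K : Subgroup (W ⧸ N)) :
    Nat.card (K.comap (QuotientGroup.mk' N)) = Nat.card K * Nat.card N := by
  have h1 := (K.comap (QuotientGroup.mk' N)).card_mul_index
  have h2 := K.card_mul_index
  have h3 := Subgroup.card_eq_card_quotient_mul_card_subgroup N
  have h4 : (K.comap (QuotientGroup.mk' N)).index = K.index :=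
    Subgroup.index_comap_of_surjective K (QuotientGroup.mk'_surjective N)
  have h5 : 0 < K.index := Nat.pos_of_ne_zero Subgroup.index_ne_zero_of_finite
  rw [h4] at h1
  have h6 : Nat.card (K.comap (QuotientGroup.mk' N)) * K.index =
      (Nat.card K * Nat.card N) * K.index := by
    rw [h1, h3, ← h2]
    ring
  exact Nat.eq_of_mul_eq_mul_right h5 h6

/-- the conclusion -/
def Con (p : ℕ) (W : Type) [Group W] (z : W) : Prop := ∃ (H H₀ : Subgroup W) (d : ℕ),
    z ∈ H ∧ Nat.card W = p ^ d * Nat.card H ∧ H₀ ≤ H ∧ z ∉ H₀ ∧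
    p ^ (2 * d) * Nat.card (Subgroup.center W) ∣ Nat.card W ∧
    (∀ h ∈ H, ∀ x ∈ H₀, h * x * h⁻¹ ∈ H₀) ∧ ∀ x ∈ H, ∀ h ∈ H, h * x * h⁻¹ * x⁻¹ ∈ H₀

theorem caseA {p : ℕ} {W : Type} [Group W] [Finite W] {z : W} (N : Subgroup W) [N.Normal]
    (h : Con p (W ⧸ N) (QuotientGroup.mk' N z)) : Con p W z := by
  obtain ⟨K, K₀, d, hz, hc, hle, hz0, hdvd, hn, hcm⟩ := h
  refine ⟨K.comap (QuotientGroup.mk' N), K₀.comap (QuotientGroup.mk' N), d, hz, ?_, ?_, hz0, ?_, ?_, ?_⟩
  · rw [card_comap_mk, Subgroup.card_eq_card_quotient_mul_card_subgroup N, hc]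
    ring
  · exact Subgroup.comap_mono hle
  · have h1 : Subgroup.center W ≤ (Subgroup.center (W ⧸ N)).comap (QuotientGroup.mk' N) := by
      intro c hc
      rw [Subgroup.mem_comap, Subgroup.mem_center_iff]
      intro y
      obtain ⟨w, rfl⟩ := QuotientGroup.mk'_surjective N y
      rw [← map_mul, ← map_mul, Subgroup.mem_center_iff.1 hc w]
    have h2 := Subgroup.card_dvd_of_le h1
    rw [card_comap_mk] at h2
    have h3 : Nat.card W = Nat.card (W ⧸ N) * Nat.card N :=
      Subgroup.card_eq_card_quotient_mul_card_subgroup N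
    rw [h3]
    calc p ^ (2 * d) * Nat.card (Subgroup.center W) ∣
        p ^ (2 * d) * (Nat.card (Subgroup.center (W ⧸ N)) * Nat.card N) := Nat.mul_dvd_mul_left _ h2
      _ = (p ^ (2 * d) * Nat.card (Subgroup.center (W ⧸ N))) * Nat.card N := by ring
      _ ∣ Nat.card (W ⧸ N) * Nat.card N := Nat.mul_dvd_mul_right hdvd _
  · intro h hh x hx
    rw [Subgroup.mem_comap] at hh hx ⊢
    rw [map_mul, map_mul, map_inv]
    exact hn _ hh _ hx
  · intro x hx h hh
    rw [Subgroup.mem_comap] at hh hx ⊢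
    rw [map_mul, map_mul, map_mul, map_inv, map_inv]
    exact hcm _ hx _ hh

/-- the commutator map -/
def phi {W : Type} [Group W] (x : W) (hx : ∀ w, w * x * w⁻¹ * x⁻¹ ∈ Subgroup.center W) : W →* W where
  toFun w := w * x * w⁻¹ * x⁻¹
  map_one' := by group
  map_mul' a b := by
    have h1 := Subgroup.mem_center_iff.1 (hx b) (a * x * a⁻¹ * x⁻¹)
    have h2 := Subgroup.mem_center_iff.1 (hx b) a
    calc a * b * x * (a * b)⁻¹ * x⁻¹ = a * (b * x * b⁻¹ * x⁻¹) * x * a⁻¹ * x⁻¹ := by group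
      _ = (b * x * b⁻¹ * x⁻¹) * a * x * a⁻¹ * x⁻¹ := by rw [h2]
      _ = (b * x * b⁻¹ * x⁻¹) * (a * x * a⁻¹ * x⁻¹) := by group
      _ = (a * x * a⁻¹ * x⁻¹) * (b * x * b⁻¹ * x⁻¹) := h1.symm

theorem exists_x {p n : ℕ} (hp : p.Prime) {W : Type} [Group W] [Finite W] (hn : Nat.card W = p ^ n)
    (hab : Subgroup.center W ≠ ⊤) : ∃ x : W, x ∉ Subgroup.center W ∧ x ^ p ∈ Subgroup.center W ∧
      ∀ w, w * x * w⁻¹ * x⁻¹ ∈ Subgroup.center W := by
  haveI : Fact p.Prime := ⟨hp⟩
  set Q := W ⧸ Subgroup.center W with hQ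
  have hPW : IsPGroup p W := IsPGroup.of_card hn
  have hPQ : IsPGroup p Q := hPW.to_quotient _
  haveI : Nontrivial Q := by
    by_contra hnt
    rw [not_nontrivial_iff_subsingleton] at hnt
    apply hab
    rw [eq_top_iff]
    intro w _
    have : (QuotientGroup.mk' (Subgroup.center W) w) = 1 := Subsingleton.elim _ _
    exact (QuotientGroup.eq_one_iff w).1 this
  haveI := hPQ.center_nontrivial
  have hPC : IsPGroup p (Subgroup.center Q) := hPQ.to_subgroup _
  obtain ⟨k, hk⟩ := (IsPGroup.iff_card).1 hPC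
  have hk0 : k ≠ 0 := by
    intro h0
    rw [h0, pow_zero] at hk
    have := Finite.one_lt_card (α := Subgroup.center Q)
    omega
  have hdvd : p ∣ Nat.card (Subgroup.center Q) := by
    rw [hk]
    exact dvd_pow_self p hk0
  obtain ⟨y, hy⟩ := exists_prime_orderOf_dvd_card' p hdvd
  obtain ⟨x, hx⟩ := QuotientGroup.mk'_surjective (Subgroup.center W) (y : Q)
  have hy1 : (y : Q) ≠ 1 := by
    intro h1
    have h2 : y = 1 := Subtype.ext h1
    rw [h2, orderOf_one] at hy
    exact hp.one_lt.ne hy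
  have hyp : (y : Q) ^ p = 1 := by
    have h1 : y ^ p = 1 := by rw [← hy]; exact pow_orderOf_eq_one y
    have h2 := congrArg Subtype.val h1
    exact h2
  refine ⟨x, ?_, ?_, ?_⟩
  · intro h1
    apply hy1
    rw [← hx]
    exact (QuotientGroup.eq_one_iff x).2 h1
  · have h1 : (QuotientGroup.mk' (Subgroup.center W)) (x ^ p) = 1 := by rw [map_pow, hx, hyp]
    exact (QuotientGroup.eq_one_iff _).1 h1
  · intro w
    have h1 : (QuotientGroup.mk' (Subgroup.center W)) (w * x * w⁻¹ * x⁻¹) = 1 := by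
      have h2 := Subgroup.mem_center_iff.1 y.2 (QuotientGroup.mk' (Subgroup.center W) w)
      rw [map_mul, map_mul, map_mul, map_inv, map_inv, hx, h2]
      group
    exact (QuotientGroup.eq_one_iff _).1 h1

theorem mem_zp {p : ℕ} (hp : p.Prime) {W : Type} [Group W] [Finite W] {z : W} (hz : z ≠ 1)
    (hzp : z ^ p = 1) (hB : ∀ N : Subgroup W, N.Normal → N ≠ ⊥ → z ∈ N) {c : W}
    (hc : c ∈ Subgroup.center W) (hcp : c ^ p = 1) : c ∈ Subgroup.zpowers z := by
  by_cases h1 : c = 1
  · rw [h1]; exact one_mem _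
  · have hn : (Subgroup.zpowers c).Normal := by
      constructor
      intro a ha g
      obtain ⟨k, rfl⟩ := Subgroup.mem_zpowers_iff.1 ha
      have h2 : c ^ k ∈ Subgroup.center W := Subgroup.zpow_mem _ hc k
      have h3 := Subgroup.mem_center_iff.1 h2 g
      rw [h3, mul_inv_cancel_right]
      exact Subgroup.zpow_mem _ (Subgroup.mem_zpowers c) k
    have hne : Subgroup.zpowers c ≠ ⊥ := by
      intro h2
      exact h1 (Subgroup.zpowers_eq_bot.1 h2)
    have hz' := hB _ hn hne
    have hle : Subgroup.zpowers z ≤ Subgroup.zpowers c := Subgroup.zpowers_le.2 hz'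
    haveI : Fact p.Prime := ⟨hp⟩
    have hoz : orderOf z = p := orderOf_eq_prime hzp hz
    have hoc : orderOf c = p := orderOf_eq_prime hcp h1
    have heq : Subgroup.zpowers z = Subgroup.zpowers c := by
      apply Subgroup.eq_of_le_of_card_ge hle
      rw [Nat.card_zpowers, Nat.card_zpowers, hoz, hoc]
    rw [heq]
    exact Subgroup.mem_zpowers c

theorem caseB {p n : ℕ} (hp : p.Prime) {W : Type} [Group W] [Finite W] (hn : Nat.card W = p ^ n)
    {z : W} (hz : z ≠ 1) (hzp : z ^ p = 1) (hzc : z ∈ Subgroup.center W)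
    (hB : ∀ N : Subgroup W, N.Normal → N ≠ ⊥ → z ∈ N) (hab : Subgroup.center W ≠ ⊤)
    (ih : ∀ (M : Subgroup W) (z' : M), Nat.card M < Nat.card W → z' ≠ 1 → z' ^ p = 1 →
      z' ∈ Subgroup.center M → Con p M z') : Con p W z := by
  obtain ⟨x, hx, hxp, hxc⟩ := exists_x hp hn hab
  set φ := phi x hxc with hφ
  have hφw : ∀ w, φ w = w * x * w⁻¹ * x⁻¹ := fun w => rfl
  set M := φ.ker with hM
  have hmem : ∀ w, w ∈ M ↔ w * x = x * w := by
    intro w
    rw [hM, MonoidHom.mem_ker, hφw]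
    constructor
    · intro h
      have h1 : w * x * w⁻¹ = x := mul_inv_eq_one.1 h
      rw [mul_inv_eq_iff_eq_mul] at h1
      exact h1
    · intro h
      rw [h, mul_inv_cancel_right, mul_inv_cancel]
  have hrange : φ.range ≤ Subgroup.zpowers z := by
    rintro c ⟨w, rfl⟩
    have hc : φ w ∈ Subgroup.center W := hxc w
    apply mem_zp hp hz hzp hB hc
    have h1 : w * x * w⁻¹ = φ w * x := by rw [hφw]; group
    have h2 : (w * x * w⁻¹) ^ p = x ^ p := by
      rw [conj_pow, ← Subgroup.mem_center_iff.1 hxp w |>.symm, mul_inv_cancel_right]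
    have h3 : (φ w * x) ^ p = (φ w) ^ p * x ^ p :=
      Commute.mul_pow (show Commute (φ w) x from (Subgroup.mem_center_iff.1 hc x).symm) p
    rw [h1, h3] at h2
    exact mul_eq_right.1 h2
  have hcz : Nat.card (Subgroup.zpowers z) = p := by
    haveI : Fact p.Prime := ⟨hp⟩
    rw [Nat.card_zpowers, orderOf_eq_prime hzp hz]
  have hcr : Nat.card φ.range = p := by
    have h1 := Subgroup.card_dvd_of_le hrange
    rw [hcz] at h1
    rcases (Nat.dvd_prime hp).1 h1 with h2 | h2
    · exfalso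
      have h3 : φ.range = ⊥ := Subgroup.card_eq_one.1 h2
      apply hx
      rw [Subgroup.mem_center_iff]
      intro w
      have h4 : φ w ∈ φ.range := ⟨w, rfl⟩
      rw [h3, Subgroup.mem_bot] at h4
      exact (hmem w).1 h4
    · exact h2
  have hcM : Nat.card W = p * Nat.card M := by
    have h1 := M.card_mul_index
    rw [hM, Subgroup.index_ker, hcr] at h1
    rw [← h1, hM]
    ring
  have hMpos : 0 < Nat.card M := Nat.card_pos
  have hzM : z ∈ M := (hmem z).2 (Subgroup.mem_center_iff.1 hzc x).symm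
  have hlt : Nat.card M < Nat.card W := by
    rw [hcM]
    have := hp.two_le
    nlinarith
  obtain ⟨H, H₀, d, h1, h2, h3, h4, h5, h6, h7⟩ := ih M ⟨z, hzM⟩ hlt (by
      intro h
      exact hz (congrArg Subtype.val h)) (by
      apply Subtype.ext
      exact hzp) (by
      rw [Subgroup.mem_center_iff]
      intro g
      apply Subtype.ext
      exact Subgroup.mem_center_iff.1 hzc g.1)
  have hcmap : ∀ K : Subgroup M, Nat.card (K.map M.subtype) = Nat.card K := fun K =>
    Nat.card_congr (K.equivMapOfInjective M.subtype M.subtype_injective).symm.toEquiv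
  refine ⟨H.map M.subtype, H₀.map M.subtype, d + 1, ?_, ?_, Subgroup.map_mono h3, ?_, ?_, ?_, ?_⟩
  · exact ⟨⟨z, hzM⟩, h1, rfl⟩
  · rw [hcmap, hcM, h2]
    ring
  · rintro ⟨y, hy, hyz⟩
    apply h4
    have : y = ⟨z, hzM⟩ := Subtype.ext hyz
    rw [← this]
    exact hy
  · -- the centre
    set Z' := (Subgroup.center M).map M.subtype with hZ'
    have hle : Subgroup.center W ≤ Z' := by
      intro c hc
      have hcM' : c ∈ M := (hmem c).2 (Subgroup.mem_center_iff.1 hc x).symm
      refine ⟨⟨c, hcM'⟩, ?_, rfl⟩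
      apply Subgroup.mem_center_iff.2
      intro g
      apply Subtype.ext
      exact Subgroup.mem_center_iff.1 hc g.1
    have hxM : x ∈ M := (hmem x).2 rfl
    have hxZ : x ∈ Z' := by
      refine ⟨⟨x, hxM⟩, ?_, rfl⟩
      apply Subgroup.mem_center_iff.2
      intro g
      apply Subtype.ext
      exact (hmem g.1).1 g.2
    obtain ⟨q, hq⟩ := Subgroup.card_dvd_of_le hle
    have hq1 : q ≠ 1 := by
      intro h
      rw [h, mul_one] at hq
      have : Subgroup.center W = Z' := Subgroup.eq_of_le_of_card_ge hle hq.le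
      apply hx
      rw [this]
      exact hxZ
    have hqd : q ∣ p ^ n := by
      rw [← hn]
      exact (Dvd.intro_left _ hq.symm).trans Z'.card_subgroup_dvd_card
    obtain ⟨j, -, hj⟩ := (Nat.dvd_prime_pow hp).1 hqd
    have hj0 : j ≠ 0 := by
      intro h
      rw [h, pow_zero] at hj
      exact hq1 hj
    have hpq : p ∣ q := by
      rw [hj]
      exact dvd_pow_self p hj0
    have h8 : p * Nat.card (Subgroup.center W) ∣ Nat.card (Subgroup.center M) := by
      rw [← hcmap (Subgroup.center M), ← hZ', hq, mul_comm]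
      exact Nat.mul_dvd_mul_left _ hpq
    rw [hcM]
    calc p ^ (2 * (d + 1)) * Nat.card (Subgroup.center W) =
        p * (p ^ (2 * d) * (p * Nat.card (Subgroup.center W))) := by ring
      _ ∣ p * (p ^ (2 * d) * Nat.card (Subgroup.center M)) :=
        Nat.mul_dvd_mul_left _ (Nat.mul_dvd_mul_left _ h8)
      _ ∣ p * Nat.card M := Nat.mul_dvd_mul_left _ h5
  · rintro _ ⟨h, hh, rfl⟩ _ ⟨y, hy, rfl⟩
    exact ⟨h * y * h⁻¹, h6 h hh y hy, rfl⟩
  · rintro _ ⟨y, hy, rfl⟩ _ ⟨h, hh, rfl⟩
    exact ⟨h * y * h⁻¹ * y⁻¹, h7 y hy h hh, rfl⟩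

theorem main {p : ℕ} (hp : p.Prime) : ∀ (N : ℕ) (n : ℕ) (W : Type) [Group W] [Finite W] (z : W),
    Nat.card W = N → Nat.card W = p ^ n → z ≠ 1 → z ^ p = 1 → z ∈ Subgroup.center W → Con p W z := by
  intro N
  induction N using Nat.strong_induction_on with
  | _ N ih =>
    intro n W _ _ z hN hn hz hzp hzc
    by_cases hA : ∃ N' : Subgroup W, N'.Normal ∧ N' ≠ ⊥ ∧ z ∉ N'
    · obtain ⟨N', hN', hne, hzN⟩ := hA
      apply caseA N'
      have h3 : Nat.card W = Nat.card (W ⧸ N') * Nat.card N' :=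
        Subgroup.card_eq_card_quotient_mul_card_subgroup N'
      have h4 : 1 < Nat.card N' := (Subgroup.one_lt_card_iff_ne_bot N').2 hne
      have h5 : 0 < Nat.card (W ⧸ N') := Nat.card_pos
      obtain ⟨m, -, hm⟩ := (Nat.dvd_prime_pow hp).1 (hn ▸ Dvd.intro _ h3.symm)
      refine ih (Nat.card (W ⧸ N')) ?_ m (W ⧸ N') _ rfl hm ?_ ?_ ?_
      · rw [← hN, h3]
        nlinarith
      · intro h
        exact hzN ((QuotientGroup.eq_one_iff z).1 h)
      · rw [← map_pow, hzp, map_one]
      · rw [Subgroup.mem_center_iff]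
        intro y
        obtain ⟨w, rfl⟩ := QuotientGroup.mk'_surjective N' y
        rw [← map_mul, ← map_mul, Subgroup.mem_center_iff.1 hzc w]
    · have hB : ∀ N' : Subgroup W, N'.Normal → N' ≠ ⊥ → z ∈ N' := by
        intro N' h1 h2
        by_contra h3
        exact hA ⟨N', h1, h2, h3⟩
      by_cases hab : Subgroup.center W = ⊤
      · refine ⟨⊤, ⊥, 0, Subgroup.mem_top z, ?_, bot_le, ?_, ?_, ?_, ?_⟩
        · rw [pow_zero, one_mul, Subgroup.card_top]
        · rw [Subgroup.mem_bot]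
          exact hz
        · rw [mul_zero, pow_zero, one_mul]
          exact (Subgroup.center W).card_subgroup_dvd_card
        · intro h _ x hx
          rw [Subgroup.mem_bot] at hx ⊢
          rw [hx, mul_one, mul_inv_cancel]
        · intro x _ h _
          have h1 : x ∈ Subgroup.center W := by rw [hab]; exact Subgroup.mem_top x
          rw [Subgroup.mem_bot, Subgroup.mem_center_iff.1 h1 h, mul_inv_cancel_right, mul_inv_cancel]
      · apply caseB hp hn hz hzp hzc hB hab
        intro M z' hlt h1 h2 h3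
        obtain ⟨m, -, hm⟩ := (Nat.dvd_prime_pow hp).1 (hn ▸ M.card_subgroup_dvd_card)
        exact ih (Nat.card M) (hN ▸ hlt) m M z' rfl hm h1 h2 h3

end SQ1T

theorem sq1_thm : S_SQ1 := by
  intro p n W _ _ z hp hn hz hzp hzc
  exact SQ1T.main hp (Nat.card W) n W z rfl hn hz hzp hzc

end Pool.CND
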